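import Pool.Agent.Lib.MP_89fcdb_gt.Interfaces
import Pool.Agent.Lib.MP_904b2a_gt.Ball

/-!
# MP_89fcdb_gt: local classes (modules LOC, LOCGEN)
-/

open scoped BigOperators
open Set Topology Metric Pool.Agent.Lib.MP_904b2a_gt

namespace Pool.Agent.Lib.MP_89fcdb_gt.H35

noncomputable section

variable {X Y : Type} [TopologicalSpace X] [TopologicalSpace Y] {A : Type} [AddCommGroup A]

/-- Excision along an open embedding. -/
theorem exc_embedding {j : C(Y, X)} (hj : IsOpenEmbedding j) {K : Set X} (hK : IsClosed K)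
    (hKj : K ⊆ range j) {L : Set Y} (hL : ∀ y, y ∈ L ↔ j y ∉ K) (m : ℕ) :
    Function.Bijective (HR.pb (n := m) (A := A) j (S := L) (T := Kᶜ)
      (fun y hy => (hL y).mp hy)) := by
  have hcov : Kᶜ ∪ range j = univ := by
    ext x
    by_cases hx : x ∈ K
    · simp [hKj hx]
    · simp [hx]
  have h1 := HR.excision (smallC (A := A) hK.isOpen_compl hj.isOpen_range hcov) m
  let e : Y ≃ₜ range j := hj.toIsEmbedding.toHomeomorph
  have he : ∀ y, (e y : X) = j y := fun y => rfl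
  have hm : MapsTo e L (incl (range j) ⁻¹' Kᶜ) := fun y hy => (hL y).mp hy
  have hm' : MapsTo e.symm (incl (range j) ⁻¹' Kᶜ) L := by
    intro z hz
    rw [hL, ← he, e.apply_symm_apply]
    exact hz
  have h2 := HR.pb_bijective_homeo (A := A) e hm hm' m
  have h3 := h2.comp h1
  convert h3 using 1
  funext u
  rw [Function.comp_apply, HR.pb_comp]
  rfl

section Normed

variable {E : Type} [NormedAddCommGroup E] [NormedSpace ℝ E]

/-- Moving points away from `t`. -/
def mv (t : E) (c : ℝ) (y : E) : E := y + (c / ‖y - t‖) • (y - t)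

theorem mv_zero (t y : E) : mv t 0 y = y := by simp [mv]

theorem norm_mv_sub {t y : E} (hy : y ≠ t) {c : ℝ} (hc : 0 ≤ c) : ‖mv t c y - t‖ = ‖y - t‖ + c := by
  have h0 : 0 < ‖y - t‖ := norm_pos_iff.mpr (sub_ne_zero.mpr hy)
  have h1 : mv t c y - t = (1 + c / ‖y - t‖) • (y - t) := by
    unfold mv
    rw [add_smul, one_smul]
    abel
  rw [h1, norm_smul, Real.norm_of_nonneg (by positivity)]
  field_simp

theorem mv_ne {t y : E} (hy : y ≠ t) {c : ℝ} (hc : 0 ≤ c) : mv t c y ≠ t := by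
  intro h
  have h0 : 0 < ‖y - t‖ := norm_pos_iff.mpr (sub_ne_zero.mpr hy)
  have := norm_mv_sub hy hc
  rw [h, sub_self, norm_zero] at this
  linarith

theorem mv_out {t y : E} (ht : ‖t‖ < 1) (hy : y ∉ closedBall (0 : E) 1) {c : ℝ} (hc : 0 ≤ c) :
    mv t c y ∉ closedBall (0 : E) 1 := by
  intro h
  apply hy
  have hyt : y ≠ t := by
    rintro rfl
    exact hy (mem_closedBall_zero_iff.mpr ht.le)
  have h0 : 0 < ‖y - t‖ := norm_pos_iff.mpr (sub_ne_zero.mpr hyt)
  have ht' : t ∈ closedBall (0 : E) 1 := mem_closedBall_zero_iff.mpr ht.le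
  have hconv := convex_closedBall (0 : E) 1
  have h1 : y = (c / (‖y - t‖ + c)) • t + (‖y - t‖ / (‖y - t‖ + c)) • mv t c y := by
    have h2 : mv t c y = t + (1 + c / ‖y - t‖) • (y - t) := by
      unfold mv
      rw [add_smul, one_smul]
      abel
    have h3 : ‖y - t‖ / (‖y - t‖ + c) * (1 + c / ‖y - t‖) = 1 := by
      field_simp
    have h4 : c / (‖y - t‖ + c) + ‖y - t‖ / (‖y - t‖ + c) = 1 := by
      field_simp
      ring
    rw [h2, smul_add, smul_smul, h3, one_smul, ← add_assoc, ← add_smul, h4, one_smul]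
    abel
  rw [h1]
  refine hconv ht' h (by positivity) (by positivity) ?_
  field_simp
  ring

theorem mv_three {t y : E} (ht : ‖t‖ < 1) (hy : y ≠ t) : mv t 3 y ∉ closedBall (0 : E) 1 := by
  intro h
  have h0 : 0 < ‖y - t‖ := norm_pos_iff.mpr (sub_ne_zero.mpr hy)
  have h1 := norm_mv_sub hy (c := 3) (by norm_num)
  have h2 : ‖mv t 3 y‖ ≤ 1 := mem_closedBall_zero_iff.mp h
  have h3 := norm_sub_le (mv t 3 y) t
  linarith

theorem continuous_mv (t : E) {Z : Type} [TopologicalSpace Z] {c : Z → ℝ} {y : Z → E}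
    (hc : Continuous c) (hy : Continuous y) (hyt : ∀ z, y z ≠ t) :
    Continuous (fun z => mv t (c z) (y z)) := by
  unfold mv
  refine hy.add (Continuous.smul (hc.div (hy.sub continuous_const).norm (fun z => ?_))
    (hy.sub continuous_const))
  exact (norm_pos_iff.mpr (sub_ne_zero.mpr (hyt z))).ne'

theorem ball_sub {t : E} (ht : ‖t‖ < 1) : (closedBall (0 : E) 1)ᶜ ⊆ ({t}ᶜ : Set E) := by
  rintro y hy rfl
  exact hy (mem_closedBall_zero_iff.mpr ht.le)

/-- The complement of the closed ball and the complement of a point. -/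
theorem ball_compl_bijective (t : E) (ht : ‖t‖ < 1) (m : ℕ) :
    Function.Bijective (HR.pb (n := m) (A := A) (ContinuousMap.id E)
      (S := (closedBall (0 : E) 1)ᶜ) (T := ({t}ᶜ : Set E)) (ball_sub ht)) := by
  refine HR.pb_id_bijective (ball_sub ht) (fun n => ?_) m
  let g : C(({t}ᶜ : Set E), ((closedBall (0 : E) 1)ᶜ : Set E)) :=
    ⟨fun y => ⟨mv t 3 y.1, mv_three ht y.2⟩,
      (continuous_mv t continuous_const continuous_subtype_val (fun z => z.2)).subtype_mk _⟩
  have hs : ∀ s : unitInterval, 0 ≤ (1 - (s : ℝ)) * 3 := fun s => by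
    have := s.2.2
    linarith
  refine H.pb_bijective (g := g) ⟨⟨⟨fun p => ⟨mv t ((1 - (p.1 : ℝ)) * 3) p.2.1,
    mv_out ht p.2.2 (hs p.1)⟩, ?_⟩, ?_, ?_⟩⟩ ⟨⟨⟨fun p => ⟨mv t ((1 - (p.1 : ℝ)) * 3) p.2.1,
    mv_ne p.2.2 (hs p.1)⟩, ?_⟩, ?_, ?_⟩⟩
  · refine (continuous_mv t (by fun_prop) (by fun_prop) (fun z => ?_)).subtype_mk _
    exact ball_sub ht z.2.2
  · intro y
    apply Subtype.ext
    change mv t ((1 - ((0 : unitInterval) : ℝ)) * 3) y.1 = mv t 3 y.1
    simp
  · intro y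
    apply Subtype.ext
    change mv t ((1 - ((1 : unitInterval) : ℝ)) * 3) y.1 = y.1
    simp [mv_zero]
  · exact (continuous_mv t (by fun_prop) (by fun_prop) (fun z => z.2.2)).subtype_mk _
  · intro y
    apply Subtype.ext
    change mv t ((1 - ((0 : unitInterval) : ℝ)) * 3) y.1 = mv t 3 y.1
    simp
  · intro y
    apply Subtype.ext
    change mv t ((1 - ((1 : unitInterval) : ℝ)) * 3) y.1 = y.1
    simp [mv_zero]

theorem image_sub (j : C(E, X)) {t : E} (ht : ‖t‖ < 1) :
    (j '' closedBall (0 : E) 1)ᶜ ⊆ ({j t}ᶜ : Set X) := by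
  rintro x hx rfl
  exact hx ⟨t, mem_closedBall_zero_iff.mpr ht.le, rfl⟩

theorem toH_iff [ProperSpace E] [T2Space X] (j : C(E, X)) (hj : IsOpenEmbedding j) (t : E)
    (ht : ‖t‖ < 1) (m : ℕ) :
    Function.Bijective (HR.toH (n := m) (S := ({j t}ᶜ : Set X)) (A := A)) ↔
      Function.Bijective
        (HR.toH (n := m) (S := ((j '' closedBall (0 : E) 1)ᶜ : Set X)) (A := A)) := by
  have hb : Function.Bijective (HR.pb (n := m) (A := A) (ContinuousMap.id X)
      (S := (j '' closedBall (0 : E) 1)ᶜ) (T := ({j t}ᶜ : Set X)) (image_sub j ht)) := by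
    have hK : IsClosed (j '' closedBall (0 : E) 1) :=
      ((isCompact_closedBall (0 : E) 1).image j.continuous).isClosed
    have h1 := exc_embedding (A := A) hj hK (image_subset_range _ _)
      (L := (closedBall (0 : E) 1)ᶜ) (fun y => by
        rw [hj.injective.mem_set_image]
        rfl) m
    have h2 := exc_embedding (A := A) hj (isClosed_singleton (x := j t))
      (by rintro _ rfl; exact mem_range_self t) (L := ({t}ᶜ : Set E)) (fun y => by
        rw [mem_singleton_iff, hj.injective.eq_iff]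
        rfl) m
    have h3 := (ball_compl_bijective (A := A) t ht m).comp h2
    refine (Function.Bijective.of_comp_iff' h1 _).mp ?_
    convert h3 using 1
    funext u
    obtain ⟨z, rfl⟩ := HR.mk_surjective m u
    rfl
  have h4 : (HR.toH (n := m) (S := ({j t}ᶜ : Set X)) (A := A) : _ → _) =
      (HR.toH (n := m) (S := ((j '' closedBall (0 : E) 1)ᶜ : Set X)) (A := A)) ∘
        (HR.pb (n := m) (A := A) (ContinuousMap.id X)
      (S := (j '' closedBall (0 : E) 1)ᶜ) (T := ({j t}ᶜ : Set X)) (image_sub j ht)) := by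
    funext u
    obtain ⟨z, rfl⟩ := HR.mk_surjective m u
    rfl
  rw [h4]
  exact Function.Bijective.of_comp_iff _ hb

end Normed

/-- [LOC] -/
theorem loc : LocStatement := by
  intro n X _ _ _ hLE x₀ h₀ x
  have key : ∀ x : X, ∃ V : Set X, IsOpen V ∧ x ∈ V ∧
      ∀ y ∈ V, (Fund (n + 1) X y ↔ Fund (n + 1) X x) := by
    intro x
    obtain ⟨j, hj, rfl⟩ := hLE x
    refine ⟨j '' ball 0 1, hj.isOpenMap _ isOpen_ball, ⟨0, mem_ball_self one_pos, rfl⟩, ?_⟩
    rintro _ ⟨t, ht, rfl⟩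
    have ht' : ‖t‖ < 1 := mem_ball_zero_iff.mp ht
    refine forall_congr' (fun A => forall_congr' (fun _ => ?_))
    exact (toH_iff (A := A) ⟨j, hj.continuous⟩ hj t ht' (n + 1)).trans
      (toH_iff (A := A) ⟨j, hj.continuous⟩ hj 0 (by simp) (n + 1)).symm
  have hcl : IsClopen {x : X | Fund (n + 1) X x} := by
    constructor
    · rw [← isOpen_compl_iff, isOpen_iff_forall_mem_open]
      intro x hx
      obtain ⟨V, hV, hxV, hVy⟩ := key x
      exact ⟨V, fun y hy h => hx ((hVy y hy).mp h), hV, hxV⟩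
    · rw [isOpen_iff_forall_mem_open]
      intro x hx
      obtain ⟨V, hV, hxV, hVy⟩ := key x
      exact ⟨V, fun y hy => (hVy y hy).mpr hx, hV, hxV⟩
  have := hcl.eq_univ ⟨x₀, h₀⟩
  have hx : x ∈ {x : X | Fund (n + 1) X x} := by
    rw [this]
    trivial
  exact hx

/-! ## LOCGEN -/

/-- The class of a constant on a point. -/
def cst (a : A) : HR 0 (∅ : Set Unit) A :=
  HR.mk 0 ⟨fun _ => a, fun σ hσ => absurd (hσ (stdSimplex.vertex 0)) (notMem_empty _), by
    change cob 0 _ = 0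
    funext σ
    rw [cob_apply]
    simp [Finset.sum_range_succ]⟩

theorem toH_cst (a : A) : HR.toH (cst a) = H.const Unit a := rfl

theorem cm_cst {B : Type} [AddCommGroup B] (g : A →+ B) (a : A) : HR.cm g (cst a) = cst (g a) := rfl

theorem cst_bijective : Function.Bijective (cst : A → HR 0 (∅ : Set Unit) A) := by
  have hb := HR.toH_bijective_of_empty (A := A) (n := 0) (S := (∅ : Set Unit)) rfl
  constructor
  · intro a b hab
    have h1 : H.const Unit a = H.const Unit b := by rw [← toH_cst, ← toH_cst, hab]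
    have h2 : H.const Unit (a - b) = 0 := by
      rw [sub_eq_add_neg, H.const_add, h1, ← H.const_add, add_neg_cancel, H.const_zero]
    exact sub_eq_zero.mp ((H.const_eq_zero_iff _).mp h2)
  · intro u
    obtain ⟨a, ha⟩ := H0_point (HR.toH u)
    exact ⟨a, hb.1 (by rw [toH_cst, ha])⟩

/-- The inclusion of `ℝ^d` in `pt × ℝ^d`. -/
def ptIncl (d : ℕ) : C(Fin d → ℝ, Unit × (Fin d → ℝ)) := ⟨fun t => ((), t), by fun_prop⟩

theorem ptIncl_bijective (d m : ℕ) :
    Function.Bijective (HR.pb (n := m) (A := A) (ptIncl d) (S := ({0}ᶜ : Set (Fin d → ℝ)))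
      (T := thomSet d (∅ : Set Unit)) (fun _ ht => Or.inr ht)) := by
  let g : C(Unit × (Fin d → ℝ), Fin d → ℝ) := ⟨Prod.snd, continuous_snd⟩
  have hg : MapsTo g (thomSet d (∅ : Set Unit)) ({0}ᶜ : Set (Fin d → ℝ)) := by
    rintro p (hp | hp)
    · exact absurd hp (notMem_empty _)
    · exact hp
  refine Function.bijective_iff_has_inverse.mpr ⟨HR.pb g hg, fun u => ?_, fun u => ?_⟩
  · obtain ⟨z, rfl⟩ := HR.mk_surjective m u
    rfl
  · obtain ⟨z, rfl⟩ := HR.mk_surjective m u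
    rfl

/-- [LOCGEN] -/
theorem locGen (hT : ThomStatement) : LocGenStatement := by
  obtain ⟨Θ, hbij, -, hcm, -⟩ := hT
  intro n X _ _ hLE x
  obtain ⟨j, hj, rfl⟩ := hLE x
  suffices h : ∀ k, k = 0 + (n + 1) → ∃ ι : HR k ({j 0}ᶜ : Set X) ℤ, IsUniv ι from
    h (n + 1) (Nat.zero_add _).symm
  rintro k rfl
  let J : C(Fin (n + 1) → ℝ, X) := ⟨j, hj.continuous⟩
  have hJ : MapsTo J ({0}ᶜ : Set (Fin (n + 1) → ℝ)) ({j 0}ᶜ : Set X) :=
    fun y hy h => hy (hj.injective h)
  have hI : MapsTo (ptIncl (n + 1)) ({0}ᶜ : Set (Fin (n + 1) → ℝ)) (thomSet (n + 1) ∅) :=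
    fun _ ht => Or.inr ht
  have hexc : ∀ (A : Type) [AddCommGroup A], Function.Bijective
      (HR.pb (n := 0 + (n + 1)) (A := A) J hJ) := by
    intro A _
    exact exc_embedding (A := A) (j := J) hj (isClosed_singleton (x := j 0))
      (by rintro _ rfl; exact mem_range_self (f := j) 0) (L := ({0}ᶜ : Set (Fin (n + 1) → ℝ)))
      (fun y => by
        rw [mem_singleton_iff]
        exact (hj.injective.eq_iff.not).symm) _
  obtain ⟨ι, hι⟩ := (hexc ℤ).2 (HR.pb (ptIncl (n + 1)) hI (Θ (n + 1) Unit ∅ 0 ℤ (cst 1)))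
  refine ⟨ι, fun A _ => ?_⟩
  have key : ∀ a : A, HR.pb J hJ (HR.cm (zmultiplesHom A a) ι) =
      HR.pb (ptIncl (n + 1)) hI (Θ (n + 1) Unit ∅ 0 A (cst a)) := by
    intro a
    rw [HR.pb_cm, hι, ← HR.pb_cm, ← hcm, cm_cst]
    rw [zmultiplesHom_apply, one_smul]
  have hcomp := (ptIncl_bijective (A := A) (n + 1) (0 + (n + 1))).comp
    ((hbij (n + 1) Unit ∅ 0 A isOpen_empty).comp (cst_bijective (A := A)))
  refine (Function.Bijective.of_comp_iff' (hexc A) _).mp ?_
  convert hcomp using 1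
  funext a
  exact key a

end

end Pool.Agent.Lib.MP_89fcdb_gt.H35
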