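import Pool.Agent.Lib.MP_89fcdb_gt.Interfaces

/-!
# MP_89fcdb_gt: from cohomology with all coefficients to homology (modules UC1, UC2, UC3)
-/

open scoped BigOperators
open Set Topology Pool.Agent.Lib.MP_904b2a_gt

namespace Pool.Agent.Lib.MP_89fcdb_gt.H35

noncomputable section

variable {X Y : Type} [TopologicalSpace X] [TopologicalSpace Y]
variable {A A' : Type} [AddCommGroup A] [AddCommGroup A']

/-- Evaluation of a cochain on chains. -/
def ev (n : ℕ) (φ : Coch n X A) : Chain n X →+ A :=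
  Finsupp.liftAddHom (fun σ => zmultiplesHom A (φ σ))

theorem ev_single (n : ℕ) (φ : Coch n X A) (σ : Sing n X) (k : ℤ) :
    ev n φ (Finsupp.single σ k) = k • φ σ := by
  unfold ev
  rw [Finsupp.liftAddHom_apply_single]
  rfl

/-- The cochain of a homomorphism. -/
def co (n : ℕ) (F : Chain n X →+ A) : Coch n X A := fun σ => F (Finsupp.single σ 1)

theorem ev_co (n : ℕ) (F : Chain n X →+ A) : ev n (co n F) = F := by
  refine Finsupp.addHom_ext (fun σ k => ?_)
  rw [ev_single]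
  change k • F (Finsupp.single σ 1) = _
  rw [← map_zsmul, Finsupp.smul_single, smul_eq_mul, mul_one]

theorem ev_co_apply (n : ℕ) (F : Chain n X →+ A) (c : Chain n X) : ev n (co n F) c = F c := by
  rw [ev_co]

theorem fv_eq_succAbove (n : ℕ) (i : Fin (n + 2)) : fv n i = i.succAbove := by
  funext k
  unfold fv Fin.succAbove
  simp only [Fin.lt_def, Fin.val_castSucc]

theorem bdry_single (n : ℕ) (σ : Sing (n + 1) X) (k : ℤ) :
    bdry n (Finsupp.single σ k) =
      ∑ i : Fin (n + 2), Finsupp.single (σ.face i) ((-1) ^ (i : ℕ) * k) := by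
  unfold bdry
  rw [Finsupp.liftAddHom_apply_single, AddMonoidHom.finsetSum_apply]
  rfl

theorem face_eq (n : ℕ) (σ : Sing (n + 1) X) (i : Fin (n + 2)) :
    σ.face i = ContinuousMap.comp σ (smap (fv n i)) := by
  unfold Sing.face smap
  rw [fv_eq_succAbove]

theorem ev_cob (n : ℕ) (φ : Coch n X A) (c : Chain (n + 1) X) :
    ev (n + 1) (cob n φ) c = ev n φ (bdry n c) := by
  induction c using Finsupp.induction_linear with
  | zero => simp
  | add a b ha hb => rw [map_add, map_add, map_add, ha, hb]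
  | single σ k =>
    rw [ev_single, bdry_single, map_sum, cob_apply, Finset.sum_range, Finset.smul_sum]
    refine Finset.sum_congr rfl (fun i _ => ?_)
    rw [ev_single, smul_smul, face_eq, mul_comm]

theorem ev_add (n : ℕ) (φ ψ : Coch n X A) : ev n (φ + ψ) = ev n φ + ev n ψ := by
  refine Finsupp.addHom_ext (fun σ k => ?_)
  rw [AddMonoidHom.add_apply, ev_single, ev_single, ev_single]
  exact smul_add _ _ _

theorem ev_sub (n : ℕ) (φ ψ : Coch n X A) : ev n (φ - ψ) = ev n φ - ev n ψ := by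
  refine Finsupp.addHom_ext (fun σ k => ?_)
  rw [AddMonoidHom.sub_apply, ev_single, ev_single, ev_single]
  exact smul_sub _ _ _

theorem ev_zero (n : ℕ) (c : Chain n X) : ev n (0 : Coch n X A) c = 0 := by
  have h : ev n (0 : Coch n X A) = 0 := by
    refine Finsupp.addHom_ext (fun σ k => ?_)
    rw [ev_single]
    exact smul_zero _
  rw [h]
  rfl

theorem ev_injective (n : ℕ) {φ ψ : Coch n X A} (h : ev n φ = ev n ψ) : φ = ψ := by
  funext σ
  have := DFunLike.congr_fun h (Finsupp.single σ 1)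
  rwa [ev_single, ev_single, one_smul, one_smul] at this

theorem ev_pbC (n : ℕ) (f : C(X, Y)) (φ : Coch n Y A) (c : Chain n X) :
    ev n (pbC n f φ) c = ev n φ (push n f c) := by
  induction c using Finsupp.induction_linear with
  | zero => simp
  | add a b ha hb => rw [map_add, map_add, map_add, ha, hb]
  | single σ k =>
    rw [ev_single]
    unfold push
    rw [Finsupp.mapDomain.addMonoidHom_apply, Finsupp.mapDomain_single, ev_single]
    rfl

theorem cob_co (n : ℕ) (F : Chain n X →+ A) :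
    cob n (co n F) = co (n + 1) (F.comp (bdry n)) := by
  apply ev_injective
  ext1
  refine AddMonoidHom.ext (fun k => ?_)
  change ev (n + 1) (cob n (co n F)) _ = ev (n + 1) (co (n + 1) (F.comp (bdry n))) _
  rw [ev_cob, ev_co, ev_co]
  rfl

theorem mem_chainsIn_single {n : ℕ} {S : Set X} {σ : Sing n X} (h : InS S σ) (k : ℤ) :
    (Finsupp.single σ k : Chain n X) ∈ chainsIn n S := by
  change (Finsupp.single σ k : Chain n X) ∈ Finsupp.supported ℤ ℤ _
  exact Finsupp.single_mem_supported ℤ k (inS_iff_range.mp h)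

theorem ev_zero_of_relCoch {n : ℕ} {S : Set X} {φ : Coch n X A} (h : φ ∈ relCoch A S n)
    {c : Chain n X} (hc : c ∈ chainsIn n S) : ev n φ c = 0 := by
  change c ∈ Finsupp.supported ℤ ℤ _ at hc
  rw [Finsupp.mem_supported] at hc
  unfold ev
  rw [Finsupp.liftAddHom_apply]
  refine Finset.sum_eq_zero (fun σ hσ => ?_)
  have h1 : φ σ = 0 := h σ (inS_iff_range.mpr (hc hσ))
  change (c σ) • φ σ = 0
  rw [h1, smul_zero]

theorem co_mem_relCoch {n : ℕ} {S : Set X} {F : Chain n X →+ A}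
    (h : ∀ c ∈ chainsIn n S, F c = 0) : co n F ∈ relCoch A S n :=
  fun _ hσ => h _ (mem_chainsIn_single hσ 1)

/-- Cocycles are the homomorphisms which kill the boundaries. -/
theorem co_mem_cocycles {n : ℕ} {F : Chain n X →+ A} (h : ∀ b, F (bdry n b) = 0) :
    co n F ∈ cocycles X A n := by
  change cob n (co n F) = 0
  apply ev_injective
  refine AddMonoidHom.ext (fun c => ?_)
  rw [ev_cob, ev_co, h]
  exact (ev_zero (n + 1) c).symm

theorem ev_bdry_of_cocycle {n : ℕ} {φ : Coch n X A} (h : cob n φ = 0) (b : Chain (n + 1) X) :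
    ev n φ (bdry n b) = 0 := by
  rw [← ev_cob, h]
  exact ev_zero (n + 1) b

/-- A cocycle which is a difference. -/
theorem bdry_bdry (n : ℕ) (c : Chain (n + 2) X) : bdry n (bdry (n + 1) c) = 0 := by
  have h := cob_cob n (co n (AddMonoidHom.id (Chain n X)))
  have h1 : ev (n + 2) (cob (n + 1) (cob n (co n (AddMonoidHom.id (Chain n X))))) c = 0 := by
    rw [h]
    exact ev_zero (n + 2) c
  rwa [ev_cob, ev_cob, ev_co] at h1

/-- Homomorphisms into `ℚ/ℤ` defined on the image of a homomorphism extend. -/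
theorem exists_ext_character {M N : Type} [AddCommGroup M] [AddCommGroup N] (d : M →+ N)
    (F : M →+ AddCircle (1 : ℚ)) (h : ∀ m, d m = 0 → F m = 0) :
    ∃ G : N →+ AddCircle (1 : ℚ), ∀ m, G (d m) = F m := by
  let e : (M ⧸ d.ker) →ₗ[ℤ] N := (QuotientAddGroup.kerLift d).toIntLinearMap
  have he : Function.Injective e := QuotientAddGroup.kerLift_injective d
  let F' : CharacterModule (M ⧸ d.ker) :=
    (QuotientAddGroup.lift d.ker F (fun m hm => h m hm) : (M ⧸ d.ker) →+ AddCircle (1 : ℚ))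
  obtain ⟨G, hG⟩ := CharacterModule.dual_surjective_of_injective e he F'
  refine ⟨G, fun m => ?_⟩
  have h1 := DFunLike.congr_fun hG (QuotientAddGroup.mk m)
  exact h1

/-- An element which is killed by all characters vanishing on a subgroup lies in the subgroup. -/
theorem mem_of_characters {M : Type} [AddCommGroup M] (R : AddSubgroup M) (z : M)
    (h : ∀ χ : M →+ AddCircle (1 : ℚ), (∀ r ∈ R, χ r = 0) → χ z = 0) : z ∈ R := by
  rw [← QuotientAddGroup.eq_zero_iff]
  refine CharacterModule.eq_zero_of_character_apply (fun c => ?_)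
  obtain ⟨c', hc'⟩ : ∃ c' : (M ⧸ R) →+ AddCircle (1 : ℚ), ∀ x, c' x = c x := ⟨c, fun _ => rfl⟩
  rw [← hc']
  refine h (c'.comp (QuotientAddGroup.mk' R)) (fun r hr => ?_)
  have h0 : (QuotientAddGroup.mk' R) r = 0 := (QuotientAddGroup.eq_zero_iff r).mpr hr
  rw [AddMonoidHom.comp_apply, h0, map_zero]

/-- The relative cocycle of a homomorphism which kills the relative boundaries. -/
theorem co_mem_relCocycles {n : ℕ} {S : Set X} {F : Chain n X →+ A}
    (h : ∀ c ∈ relBdr n S, F c = 0) : co n F ∈ relCocycles A S n :=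
  ⟨co_mem_relCoch (fun c hc => h c (AddSubgroup.mem_sup_right hc)),
    co_mem_cocycles (fun b => h _ (AddSubgroup.mem_sup_left ⟨b, rfl⟩))⟩

theorem ev_relBdr {n : ℕ} {S : Set X} {φ : Coch n X A} (h : φ ∈ relCocycles A S n)
    {c : Chain n X} (hc : c ∈ relBdr n S) : ev n φ c = 0 := by
  obtain ⟨_, ⟨b, rfl⟩, s, hs, rfl⟩ := AddSubgroup.mem_sup.mp hc
  rw [map_add, ev_bdry_of_cocycle h.2, ev_zero_of_relCoch h.1 hs, add_zero]

/-- [UC1] -/
theorem uc1 : UC1Statement := by
  intro n X _ S hbij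
  constructor
  · intro z hz
    -- the subgroup of relative boundaries plus cycles
    have key : z ∈ relBdr (n + 1) S ⊔ (bdry n : Chain (n + 1) X →+ Chain n X).ker := by
      refine mem_of_characters _ _ (fun χ hχ => ?_)
      have hrel : co (n + 1) χ ∈ relCocycles (AddCircle (1 : ℚ)) S (n + 1) :=
        co_mem_relCocycles (fun c hc => hχ c (AddSubgroup.mem_sup_left hc))
      obtain ⟨G, hG⟩ := exists_ext_character (bdry n : Chain (n + 1) X →+ Chain n X) χ
        (fun m hm => hχ m (AddSubgroup.mem_sup_right hm))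
      have h0 : HR.toH (HR.mk (n + 1) ⟨co (n + 1) χ, hrel⟩) = 0 := by
        rw [HR.toH_mk, H.mk_eq_zero]
        refine ⟨co n G, ?_⟩
        rw [cob_co]
        congr 1
        exact AddMonoidHom.ext hG
      have h1 : HR.mk (n + 1) ⟨co (n + 1) χ, hrel⟩ = 0 :=
        (hbij (AddCircle (1 : ℚ))).1 (h0.trans (map_zero _).symm)
      rw [HR.mk_eq_zero] at h1
      obtain ⟨ψ, hψ, hψ'⟩ := h1
      have h2 : ev (n + 1) (cob n ψ) z = χ z := by
        rw [hψ']
        exact ev_co_apply _ _ _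
      rw [← h2, ev_cob]
      exact ev_zero_of_relCoch hψ hz
    obtain ⟨r, hr, c, hc, rfl⟩ := AddSubgroup.mem_sup.mp key
    exact ⟨c, hc, by rwa [add_sub_cancel_right]⟩
  · intro c hc hcr
    let R : AddSubgroup (Chain (n + 1) X) :=
      (bdry (n + 1) : Chain (n + 2) X →+ Chain (n + 1) X).range
    let φ : Coch (n + 1) X (Chain (n + 1) X ⧸ R) := co (n + 1) (QuotientAddGroup.mk' R)
    have hφ : φ ∈ cocycles X (Chain (n + 1) X ⧸ R) (n + 1) :=
      co_mem_cocycles (fun b => (QuotientAddGroup.eq_zero_iff _).mpr ⟨b, rfl⟩)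
    obtain ⟨v, hv⟩ := (hbij (Chain (n + 1) X ⧸ R)).2 (H.mk (n + 1) ⟨φ, hφ⟩)
    obtain ⟨ψ, rfl⟩ := HR.mk_surjective (n + 1) v
    rw [HR.toH_mk, H.mk_eq_mk] at hv
    obtain ⟨g, hg⟩ := hv
    have h1 : ev (n + 1) (ψ.1 - φ) c = 0 := by
      have h2 : ev (n + 1) (cob n g) c = 0 := by
        rw [ev_cob, hc, map_zero]
      rw [← h2]
      exact congrArg (fun t => ev (n + 1) t c) hg.symm
    rw [ev_sub, AddMonoidHom.sub_apply, ev_relBdr ψ.2 hcr, zero_sub, neg_eq_zero] at h1
    rw [show ev (n + 1) φ c = QuotientAddGroup.mk' R c from ev_co_apply _ _ _] at h1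
    obtain ⟨b, hb⟩ := (QuotientAddGroup.eq_zero_iff c).mp h1
    exact ⟨b, by rw [hb, sub_zero]⟩

theorem bdry_push (n : ℕ) (f : C(X, Y)) (c : Chain (n + 1) X) :
    bdry n (push (n + 1) f c) = push n f (bdry n c) := by
  have h := ev_pbC (n + 1) f (cob n (co n (AddMonoidHom.id (Chain n Y)))) c
  rw [pbC_cob, ev_cob, ev_cob, ev_pbC, ev_co] at h
  exact h.symm

/-- [UC2] -/
theorem uc2 : UC2Statement := by
  intro n X Y _ _ f hbij d hd
  have key : d ∈ (bdry (n + 1) : Chain (n + 2) Y →+ Chain (n + 1) Y).range ⊔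
      (bdry n : Chain (n + 1) X →+ Chain n X).ker.map (push (n + 1) f) := by
    refine mem_of_characters _ _ (fun χ hχ => ?_)
    have hc : co (n + 1) χ ∈ cocycles Y (AddCircle (1 : ℚ)) (n + 1) :=
      co_mem_cocycles (fun b => hχ _ (AddSubgroup.mem_sup_left ⟨b, rfl⟩))
    obtain ⟨G, hG⟩ := exists_ext_character (bdry n : Chain (n + 1) X →+ Chain n X)
      (χ.comp (push (n + 1) f))
      (fun m hm => hχ _ (AddSubgroup.mem_sup_right ⟨m, hm, rfl⟩))
    have h0 : H.pb f (H.mk (n + 1) ⟨co (n + 1) χ, hc⟩) = 0 := by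
      rw [H.pb_mk, H.mk_eq_zero]
      refine ⟨co n G, ?_⟩
      rw [cob_co]
      apply ev_injective
      refine AddMonoidHom.ext (fun m => ?_)
      rw [ev_co, ev_pbC]
      change G (bdry n m) = ev (n + 1) (co (n + 1) χ) _
      rw [ev_co, hG]
      rfl
    have h1 : H.mk (n + 1) ⟨co (n + 1) χ, hc⟩ = 0 :=
      (hbij (AddCircle (1 : ℚ))).1 (h0.trans (map_zero _).symm)
    rw [H.mk_eq_zero] at h1
    obtain ⟨ψ, hψ⟩ := h1
    have h2 : ev (n + 1) (cob n ψ) d = χ d := by
      rw [hψ]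
      exact ev_co_apply _ _ _
    rw [← h2, ev_cob, hd, map_zero]
  obtain ⟨_, ⟨b, rfl⟩, _, ⟨c, hc, rfl⟩, rfl⟩ := AddSubgroup.mem_sup.mp key
  exact ⟨c, hc, -b, by rw [map_neg]; abel⟩

/-- [UC3] -/
theorem uc3 : UC3Statement := by
  intro n X _ S ι hι
  let R : AddSubgroup (Chain (n + 1) X) := relBdr (n + 1) S
  let φ : Coch (n + 1) X (Chain (n + 1) X ⧸ R) := co (n + 1) (QuotientAddGroup.mk' R)
  have hφ : φ ∈ relCocycles (Chain (n + 1) X ⧸ R) S (n + 1) :=
    co_mem_relCocycles (fun c hc => (QuotientAddGroup.eq_zero_iff _).mpr hc)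
  obtain ⟨a, ha⟩ := (hι (Chain (n + 1) X ⧸ R)).2 (HR.mk (n + 1) ⟨φ, hφ⟩)
  obtain ⟨i, rfl⟩ := HR.mk_surjective (n + 1) ι
  change HR.cm (zmultiplesHom _ a) (HR.mk (n + 1) i) = _ at ha
  rw [HR.cm_mk, HR.mk_eq_mk] at ha
  obtain ⟨g, hg, hg'⟩ := ha
  have key : ∀ z ∈ relCyc n S, QuotientAddGroup.mk' R z = ev (n + 1) i.1 z • a := by
    intro z hz
    have h1 : ev (n + 1) (cob n g) z = 0 := by
      rw [ev_cob]
      exact ev_zero_of_relCoch hg hz
    rw [hg'] at h1
    change ev (n + 1) (cmC (n + 1) (zmultiplesHom _ a) i.1 - φ) z = 0 at h1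
    rw [ev_sub, AddMonoidHom.sub_apply, sub_eq_zero,
      show ev (n + 1) φ z = QuotientAddGroup.mk' R z from ev_co_apply _ _ _] at h1
    rw [← h1]
    have h2 : ev (n + 1) (cmC (n + 1) (zmultiplesHom _ a) i.1) =
        (zmultiplesHom _ a).comp (ev (n + 1) i.1) := by
      refine Finsupp.addHom_ext (fun σ k => ?_)
      rw [AddMonoidHom.comp_apply, ev_single, ev_single]
      change k • (i.1 σ • a) = (k • i.1 σ) • a
      rw [smul_smul, smul_eq_mul]
    rw [h2]
    rfl
  obtain ⟨m, hm⟩ := Int.subgroup_cyclic ((relCyc n S).map (ev (n + 1) i.1))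
  have hm1 : m ∈ (relCyc n S).map (ev (n + 1) i.1) := by
    rw [hm]
    exact AddSubgroup.subset_closure rfl
  obtain ⟨z₀, hz₀, hz₀'⟩ := hm1
  refine ⟨z₀, hz₀, fun z hz => ?_⟩
  have h3 : ev (n + 1) i.1 z ∈ (relCyc n S).map (ev (n + 1) i.1) := ⟨z, hz, rfl⟩
  rw [hm, AddSubgroup.mem_closure_singleton] at h3
  obtain ⟨k, hk⟩ := h3
  refine ⟨k, ?_⟩
  change _ ∈ R
  rw [← QuotientAddGroup.eq_zero_iff]
  change QuotientAddGroup.mk' R (z - k • z₀) = 0
  rw [map_sub, map_zsmul, key z hz, key z₀ hz₀, hz₀', ← hk, smul_smul, smul_eq_mul, sub_self]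

end

end Pool.Agent.Lib.MP_89fcdb_gt.H35
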